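import Mathlib
import Pool.Agent.PiBasis.Defs
import Pool.Agent.PiBasis.Core
import Pool.Agent.PiBasis.Map

set_option autoImplicit false

open Filter Topology

namespace Pool.Agent.Results.MP_ded7b1_an.NoPiBasis

open Pool.Agent.PiBasis

/-- Over the real and over the complex field there is a separable Banach space `E` with the metric
approximation property and an `ε > 0` such that for every normed space `K` (in particular for every
`c₀`-sum `K = C_∞` of finite-dimensional spaces) the product `E × K`, with the max norm, has no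
`π_{1+ε}`-basis. -/
theorem result :
    ∀ (𝕜 : Type) [RCLike 𝕜],
      ∃ (E : Type) (_ : NormedAddCommGroup E) (_ : NormedSpace 𝕜 E),
        CompleteSpace E ∧ TopologicalSpace.SeparableSpace E ∧ HasMAP 𝕜 E ∧
        ∃ ε : ℝ, 0 < ε ∧
          ∀ (K : Type) [NormedAddCommGroup K] [NormedSpace 𝕜 K],
            ¬ HasPiBasis 𝕜 (E × K) (1 + ε) := by
  intro 𝕜 _
  refine ⟨PiBasis.E 𝕜, inferInstance, inferInstance, inferInstance, separable_E, hasMAP_E,
    (1 / 10 ^ 8) ^ 2, by positivity, ?_⟩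
  intro K _ _
  rintro ⟨u, hfin, hnorm, hlim, hmul⟩
  have hev : ∀ v : PiBasis.E 𝕜 × K, ∀ᶠ n in atTop, ‖u n v - v‖ ≤ 1 / 1000 := by
    intro v
    have h := hlim v
    rw [Metric.tendsto_nhds] at h
    filter_upwards [h (1 / 1000) (by norm_num)] with n hn
    rw [dist_eq_norm] at hn
    exact hn.le
  obtain ⟨n, ⟨⟨h1, h2⟩, h3⟩, h4⟩ := (((hev v1).and (hev v2)).and (hev v3)).and (hev v4) |>.exists
  obtain ⟨hlin, s, hs⟩ := hfin n
  set P : (PiBasis.E 𝕜 × K) →L[𝕜] (PiBasis.E 𝕜 × K) :=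
    (hlin.mk' (u n)).mkContinuous (1 + (1 / 10 ^ 8) ^ 2) (hnorm n) with hP
  refine core P ?_ (1 / 10 ^ 8) (by positivity) le_rfl (hnorm n) (fun z => hmul n n z le_rfl)
    h1 h2 h3 h4
  have hsf : FiniteDimensional 𝕜 (Submodule.span 𝕜 (s : Set (PiBasis.E 𝕜 × K))) :=
    FiniteDimensional.span_finset 𝕜 s
  refine Submodule.finiteDimensional_of_le (S₂ := Submodule.span 𝕜 (s : Set _)) ?_
  rintro _ ⟨x, rfl⟩
  exact hs x

end Pool.Agent.Results.MP_ded7b1_an.NoPiBasis
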